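import Pool.Agent.Helper26.OS.Defs

/-!
# TR, block C: the Jacobian determinant of a triangular map
-/

set_option autoImplicit false

namespace Pool.Agent.Helper83.TR

open MvPolynomial Pool.Agent.Helper61.TH Pool.Agent.Helper87.FK Pool.Agent.Helper26.OB Pool.Agent.Helper26.OS

noncomputable section

/-- the determinant of a matrix which is triangular after the first block -/
theorem det_tri {R : Type*} [CommRing R] {ι : Type*} [Fintype ι] [DecidableEq ι] {k : ℕ}
    (M : Matrix (ι ⊕ Fin k) (ι ⊕ Fin k) R) (h1 : ∀ i j, M (Sum.inl i) (Sum.inr j) = 0)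
    (h2 : ∀ i j, i < j → M (Sum.inr i) (Sum.inr j) = 0) :
    M.det = (Matrix.of fun i j => M (Sum.inl i) (Sum.inl j)).det * ∏ i, M (Sum.inr i) (Sum.inr i) := by
  have h : M = Matrix.fromBlocks (Matrix.of fun i j => M (Sum.inl i) (Sum.inl j)) 0
      (Matrix.of fun (i : Fin k) (j : ι) => M (Sum.inr i) (Sum.inl j))
      (Matrix.of fun i j => M (Sum.inr i) (Sum.inr j)) := by
    ext i j
    rcases i with i | i <;> rcases j with j | j
    · rfl
    · exact h1 i j
    · rfl
    · rfl
  conv_lhs => rw [h]
  rw [Matrix.det_fromBlocks_zero₁₂]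
  congr 1
  rw [Matrix.det_of_lowerTriangular]
  · rfl
  · intro i j hij
    exact h2 i j hij

end

end Pool.Agent.Helper83.TR
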