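import Pool.Agent.Helper10.TR.Defs
import Pool.Agent.Helper83.TR.Det

/-!
# TR, block C: the Jacobian determinant of a triangular map
-/

set_option autoImplicit false

namespace Pool.Agent.Helper83.TRC

open MvPolynomial Pool.Agent.Helper61.TH Pool.Agent.Helper87.FK Pool.Agent.Helper26.OB Pool.Agent.Helper10.TR
open Pool.Agent.Helper26.OS (evI jacI)

noncomputable section

/-- **TR-C** -/
theorem det_tri {m n : ℕ} {R : Type} [CommRing R] (F : Fin m → MvPolynomial (Fin m) R)
    (P : Fin n → MvPolynomial (Fin m ⊕ Fin n) R) (hP : Tri P) (y : Fin m ⊕ Fin n → R) :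
    (jacI (GG F P) y).det = (jac F fun i => y (Sum.inl i)).det * ∏ r, eval y (pderiv (Sum.inr r) (P r)) := by
  classical
  rw [Pool.Agent.Helper83.TR.det_tri (jacI (GG F P) y)]
  · congr 1
    congr 1
    ext i j
    show eval y (pderiv (Sum.inl j) (rename Sum.inl (F i))) = eval (fun i => y (Sum.inl i)) (pderiv j (F i))
    rw [pderiv_rename Sum.inl_injective, eval_rename]
    rfl
  · intro i j
    show eval y (pderiv (Sum.inr j) (rename Sum.inl (F i))) = 0
    have h0 : pderiv (Sum.inr j : Fin m ⊕ Fin n) (rename Sum.inl (F i)) = 0 := by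
      refine pderiv_eq_zero_of_notMem_vars fun h => ?_
      have h1 := vars_rename (Sum.inl : Fin m → Fin m ⊕ Fin n) (F i) h
      rw [Finset.mem_image] at h1
      obtain ⟨i, -, hi⟩ := h1
      exact Sum.inl_ne_inr hi
    rw [h0, map_zero]
  · intro i j hij
    show eval y (pderiv (Sum.inr j) (P i)) = 0
    have h0 : pderiv (Sum.inr j : Fin m ⊕ Fin n) (P i) = 0 := by
      refine pderiv_eq_zero_of_notMem_vars fun h => ?_
      rw [mem_vars] at h
      obtain ⟨s, hs, hsj⟩ := h
      exact Finsupp.mem_support_iff.1 hsj (hP i s hs j hij)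
    rw [h0, map_zero]

end

end Pool.Agent.Helper83.TRC
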