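import Pool.Agent.Helper83.TR.Spin

/-!
Sharpness of the strong classification: the spin representations.
-/

set_option linter.unusedSimpArgs false
set_option linter.unusedSectionVars false

open Module MTPairs MTP

namespace TRSpin

variable {K : Type*} [Field K]

lemma mem_am : am K ∈ AC K := Or.inl rfl
lemma mem_cm : cm K ∈ AC K := Or.inr rfl

section irr
variable {k : ℕ}

/-- The first vector of the basic pair. -/
abbrev x0 (K : Type*) [Field K] (k : ℕ) : Matrix (Sx (k + 2)) (Sx (k + 2)) K := jw 0 (cm K)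
/-- The second vector of the basic pair. -/
abbrev y0 (K : Type*) [Field K] (k : ℕ) : Matrix (Sx (k + 2)) (Sx (k + 2)) K := jw 0 (am K)

lemma x0_sq : x0 K k * x0 K k = 0 := by rw [jw_mul_same, cm_sq, loc_zero]
lemma y0_sq : y0 K k * y0 K k = 0 := by rw [jw_mul_same, am_sq, loc_zero]
lemma x0_y0 : x0 K k * y0 K k + y0 K k * x0 K k = 1 := by
  rw [jw_mul_same, jw_mul_same, ← loc_add, cm_am, loc_one]

lemma jw_orth {n : ℕ} {i j : Fin n} (hij : i ≠ j) {B C : Matrix (Fin 2) (Fin 2) K}
    (hB : B ∈ AC K) (hC : C ∈ AC K) : jw i B * jw j C + jw j C * jw i B = 0 := by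
  rw [jw_anti' hij hB hC, neg_add_cancel]

lemma g0_orth {n : ℕ} (j : Fin n) {B : Matrix (Fin 2) (Fin 2) K} (hB : B ∈ AC K) :
    g0 K n * jw j B + jw j B * g0 K n = 0 := by
  rw [g0_anti j hB, add_neg_cancel]

lemma Pres_one {m : Type*} [Fintype m] [DecidableEq m] {U : Submodule K (m → K)} :
    Pres U (1 : Matrix m m K) := by
  intro v hv
  rwa [Matrix.one_mulVec]

lemma Pres_Tn {n : ℕ} {U : Submodule K (Sx n → K)} (A : Fin n → Matrix (Fin 2) (Fin 2) K)
    (h : ∀ j, Pres U (loc j (A j))) : Pres U (Tn A) := by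
  have key : ∀ s : Finset (Fin n), Pres U (Tn (fun i => if i ∈ s then A i else 1)) := by
    intro s
    induction s using Finset.induction_on with
    | empty =>
      have : Tn (fun i : Fin n => if i ∈ (∅ : Finset (Fin n)) then A i else 1) = 1 := by
        rw [← Tn_one]; simp
      rw [this]; exact Pres_one
    | insert a s ha ih =>
      have e : Tn (fun i => if i ∈ insert a s then A i else 1) =
          loc a (A a) * Tn (fun i => if i ∈ s then A i else 1) := by
        rw [loc, Tn_mul]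
        congr 1
        funext i
        by_cases hi : i = a
        · subst hi; simp [ha]
        · simp [hi]
      rw [e]
      exact Pres.mul (h a) ih
  have := key Finset.univ
  simpa using this

lemma jw_g0 {n : ℕ} (j : Fin n) (B : Matrix (Fin 2) (Fin 2) K) :
    jw j B * g0 K n * Tn (fun i => if j < i then Zm K else 1) = loc j (B * Zm K) := by
  rw [jw, g0, Tn_mul, Tn_mul, loc]
  congr 1
  funext i
  rcases lt_trichotomy i j with h | h | h
  · simp [h, h.ne, h.not_gt, Zm_sq]
  · subst h; simp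
  · simp [h, h.ne', h.not_gt, Zm_sq]

theorem spin_irr (U : Submodule K (Sx (k + 2) → K))
    (hU : ∀ P ∈ OH (VS K (k + 2)) (x0 K k) (y0 K k), ∀ v ∈ U, P.mulVec v ∈ U) :
    U = ⊥ ∨ U = ⊤ := by
  obtain ⟨p1, p2, p3, p4⟩ := Pres_cliff x0_sq y0_sq x0_y0 hU
  -- products with the basic pair
  have q : ∀ j : Fin (k + 2), j ≠ 0 → ∀ B ∈ AC K, Pres U (x0 K k * jw j B) ∧
      Pres U (y0 K k * jw j B) := by
    intro j hj B hB
    exact p3 _ (jw_mem j hB) (jw_orth hj hB mem_cm) (jw_orth hj hB mem_am)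
  obtain ⟨g1, g2⟩ := p3 _ g0_mem (g0_orth 0 mem_cm) (g0_orth 0 mem_am)
  -- the local diagonal matrices
  have d : ∀ j : Fin (k + 2), Pres U (loc j (cm K * am K)) ∧ Pres U (loc j (am K * cm K)) := by
    intro j
    by_cases hj : j = 0
    · subst hj
      rw [jw_mul_same] at p1 p2
      exact ⟨p1, p2⟩
    · have a1 := p4 _ _ (jw_orth hj mem_cm mem_cm) (jw_orth hj mem_cm mem_am)
        (q j hj _ mem_cm).1 (q j hj _ mem_cm).2 (q j hj _ mem_am).1 (q j hj _ mem_am).2
      have a2 := p4 _ _ (jw_orth hj mem_am mem_cm) (jw_orth hj mem_am mem_am)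
        (q j hj _ mem_am).1 (q j hj _ mem_am).2 (q j hj _ mem_cm).1 (q j hj _ mem_cm).2
      rw [jw_mul_same] at a1 a2
      exact ⟨a1, a2⟩
  have dZ : ∀ j : Fin (k + 2), Pres U (loc j (Zm K)) := by
    intro j
    rw [Zm_eq, loc_sub]
    exact Pres.sub (d j).2 (d j).1
  have tail : ∀ j : Fin (k + 2), Pres U (Tn (fun i => if j < i then Zm K else 1)) := by
    intro j
    apply Pres_Tn
    intro i
    by_cases h : j < i
    · simp only [h, if_true]; exact dZ i
    · simp only [h, if_false, loc_one]; exact Pres_one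
  have f : ∀ j : Fin (k + 2), ∀ B ∈ AC K, Pres U (loc j (B * Zm K)) := by
    intro j B hB
    rw [← jw_g0]
    apply Pres.mul _ (tail j)
    by_cases hj : j = 0
    · subst hj
      rcases hB with rfl | rfl
      · exact g2
      · exact g1
    · exact p4 _ _ (jw_orth hj hB mem_cm) (jw_orth hj hB mem_am) (q j hj B hB).1
        (q j hj B hB).2 g1 g2
  have all : ∀ (j : Fin (k + 2)) (X : Matrix (Fin 2) (Fin 2) K), Pres U (loc j X) := by
    intro j X
    have a1 := f j _ mem_am
    have a2 := f j _ mem_cm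
    rw [am_Zm] at a1
    rw [cm_Zm] at a2
    have a3 : Pres U (loc j (am K)) := by
      have := Pres_neg a1
      have e : loc j (-am K) = -loc j (am K) := by
        rw [← neg_one_smul K, loc_smul, neg_one_smul]
      rwa [e, neg_neg] at this
    rw [decomp2 X, loc_add, loc_add, loc_add, loc_smul, loc_smul, loc_smul, loc_smul]
    exact Pres_add (Pres_add (Pres_add (Pres_smul _ (d j).2) (Pres_smul _ a3))
      (Pres_smul _ a2)) (Pres_smul _ (d j).1)
  apply trivial_of_single
  intro p r
  rw [single_eq_Tn]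
  exact Pres_Tn _ (fun j => all j _)

/-! ### The quadratic element -/

/-- The second creation vector. -/
abbrev z1 (K : Type*) [Field K] (k : ℕ) : Matrix (Sx (k + 2)) (Sx (k + 2)) K := jw 1 (cm K)

lemma one_ne : (1 : Fin (k + 2)) ≠ 0 := by
  intro h
  have := congrArg Fin.val h
  simp at this

/-- The two distinguished factors. -/
def Bf (k : ℕ) (B : Matrix (Fin 2) (Fin 2) K) : Fin (k + 2) → Matrix (Fin 2) (Fin 2) K :=
  fun i => if i = 0 ∨ i = 1 then B else 1

lemma x0_z1 : x0 K k * z1 K k = Tn (Bf k (cm K)) := by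
  rw [x0, z1, jw, jw, Tn_mul]
  congr 1
  funext i
  unfold Bf
  by_cases h0 : i = 0
  · subst h0
    have : (0 : Fin (k + 2)) < 1 := Fin.pos_of_ne_zero one_ne
    simp [this, cm_Zm]
  · by_cases h1 : i = 1
    · subst h1
      simp [h0]
    · have h2 : ¬ i < 1 := by
        intro h
        apply h0
        apply Fin.ext
        have := Fin.lt_def.mp h
        simp at this
        simpa using this
      have h3 : ¬ i < 0 := Fin.not_lt_zero i
      simp [h0, h1, h2]

/-- The support. -/
def Sp2 (k : ℕ) (p : Sx (k + 2)) : Prop := p 0 = 1 ∧ p 1 = 1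

instance (k : ℕ) : DecidablePred (Sp2 k) := fun p => by unfold Sp2; infer_instance

lemma Bf_mul (B C : Matrix (Fin 2) (Fin 2) K) : Tn (Bf k B) * Tn (Bf k C) = Tn (Bf k (B * C)) := by
  rw [Tn_mul]
  congr 1
  funext i
  unfold Bf
  by_cases h : i = 0 ∨ i = 1
  · simp [h]
  · simp [h]

lemma Bf_diag : Tn (Bf k (cm K * am K)) =
    Matrix.diagonal (fun p => if Sp2 k p then (1 : K) else 0) := by
  have hE : ∀ a b : Fin 2, (cm K * am K) a b = if a = b ∧ a = 1 then 1 else 0 := by
    intro a b
    fin_cases a <;> fin_cases b <;> simp [cm, am, Matrix.mul_apply, Fin.sum_univ_two]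
  ext p r
  by_cases h : p = r
  · subst h
    rw [Matrix.diagonal_apply_eq]
    by_cases hs : Sp2 k p
    · rw [if_pos hs]
      apply Finset.prod_eq_one
      intro i _
      unfold Bf
      by_cases h : i = 0 ∨ i = 1
      · rw [if_pos h, hE, if_pos]
        refine ⟨rfl, ?_⟩
        rcases h with rfl | rfl
        · exact hs.1
        · exact hs.2
      · rw [if_neg h, Matrix.one_apply_eq]
    · rw [if_neg hs]
      unfold Sp2 at hs
      rw [not_and_or] at hs
      rcases hs with hs | hs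
      · refine Finset.prod_eq_zero (Finset.mem_univ 0) ?_
        unfold Bf
        rw [if_pos (Or.inl rfl), hE, if_neg (fun h => hs h.2)]
      · refine Finset.prod_eq_zero (Finset.mem_univ 1) ?_
        unfold Bf
        rw [if_pos (Or.inr rfl), hE, if_neg (fun h => hs h.2)]
  · rw [Matrix.diagonal_apply_ne _ h]
    obtain ⟨i, hi⟩ := Function.ne_iff.mp h
    refine Finset.prod_eq_zero (Finset.mem_univ i) ?_
    unfold Bf
    by_cases h : i = 0 ∨ i = 1
    · rw [if_pos h, hE, if_neg (fun h => hi h.1)]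
    · rw [if_neg h, Matrix.one_apply_ne hi]

lemma card_Sp2 : Fintype.card {p : Sx (k + 2) // Sp2 k p} = 2 ^ k := by
  let e : {p : Sx (k + 2) // Sp2 k p} ≃ (Fin k → Fin 2) :=
    { toFun := fun p i => p.1 i.succ.succ
      invFun := fun f => ⟨Fin.cons 1 (Fin.cons 1 f), by
        unfold Sp2
        refine ⟨rfl, ?_⟩
        rfl⟩
      left_inv := by
        rintro ⟨p, h1, h2⟩
        apply Subtype.ext
        funext i
        refine Fin.cases ?_ (fun j => ?_) i
        · exact h1.symm
        · refine Fin.cases ?_ (fun j => ?_) j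
          · exact h2.symm
          · rfl
      right_inv := by
        intro f
        funext i
        rfl }
  rw [Fintype.card_congr e]
  simp

lemma rank_xz : (x0 K k * z1 K k).rank = 2 ^ k := by
  have h1 : Tn (Bf k (cm K * am K)) * Tn (Bf k (cm K)) = Tn (Bf k (cm K)) := by
    rw [Bf_mul]
    congr 2
    ext i j
    fin_cases i <;> fin_cases j <;> simp [cm, am, Matrix.mul_apply, Fin.sum_univ_two]
  have h2 : Tn (Bf k (cm K)) * Tn (Bf k (am K)) = Tn (Bf k (cm K * am K)) := Bf_mul _ _
  have h3 : (Tn (Bf k (cm K * am K)) : Matrix (Sx (k + 2)) (Sx (k + 2)) K).rank = 2 ^ k := by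
    classical
    rw [Bf_diag, Matrix.rank_diagonal, ← card_Sp2 (k := k)]
    apply Fintype.card_congr
    apply Equiv.subtypeEquivRight
    intro p
    by_cases h : Sp2 k p <;> simp [h]
  rw [x0_z1]
  apply le_antisymm
  · rw [← h1, ← h3]
    exact Matrix.rank_mul_le_left _ _
  · rw [← h3, ← h2]
    exact Matrix.rank_mul_le_left _ _

/-- The factors of the second quadratic element. -/
def Cf (k : ℕ) (B C : Matrix (Fin 2) (Fin 2) K) : Fin (k + 2) → Matrix (Fin 2) (Fin 2) K :=
  fun i => if i = 0 then B else C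

lemma x0_g0 : x0 K k * g0 K (k + 2) = Tn (Cf k (cm K) (Zm K)) := by
  rw [x0, g0, jw, Tn_mul]
  congr 1
  funext i
  unfold Cf
  by_cases h0 : i = 0
  · subst h0
    simp [cm_Zm]
  · have h3 : ¬ i < 0 := Fin.not_lt_zero i
    simp [h0]

lemma Cf_mul (A B C D : Matrix (Fin 2) (Fin 2) K) :
    Tn (Cf k A B) * Tn (Cf k C D) = Tn (Cf k (A * C) (B * D)) := by
  rw [Tn_mul]
  congr 1
  funext i
  unfold Cf
  by_cases h : i = 0
  · simp [h]
  · simp [h]

lemma Cf_diag : Tn (Cf k (cm K * am K) 1) =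
    Matrix.diagonal (fun p => if p 0 = 1 then (1 : K) else 0) := by
  have hE : ∀ a b : Fin 2, (cm K * am K) a b = if a = b ∧ a = 1 then 1 else 0 := by
    intro a b
    fin_cases a <;> fin_cases b <;> simp [cm, am, Matrix.mul_apply, Fin.sum_univ_two]
  ext p r
  by_cases h : p = r
  · subst h
    rw [Matrix.diagonal_apply_eq]
    by_cases hs : p 0 = 1
    · rw [if_pos hs]
      apply Finset.prod_eq_one
      intro i _
      unfold Cf
      by_cases h : i = 0
      · rw [if_pos h, hE, if_pos]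
        refine ⟨rfl, ?_⟩
        rw [h]; exact hs
      · rw [if_neg h, Matrix.one_apply_eq]
    · rw [if_neg hs]
      refine Finset.prod_eq_zero (Finset.mem_univ 0) ?_
      unfold Cf
      rw [if_pos rfl, hE, if_neg (fun h => hs h.2)]
  · rw [Matrix.diagonal_apply_ne _ h]
    obtain ⟨i, hi⟩ := Function.ne_iff.mp h
    refine Finset.prod_eq_zero (Finset.mem_univ i) ?_
    unfold Cf
    by_cases h : i = 0
    · rw [if_pos h, hE, if_neg (fun h => hi h.1)]
    · rw [if_neg h, Matrix.one_apply_ne hi]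

lemma card_Sp1 : Fintype.card {p : Sx (k + 2) // p 0 = 1} = 2 ^ (k + 1) := by
  let e : {p : Sx (k + 2) // p 0 = 1} ≃ (Fin (k + 1) → Fin 2) :=
    { toFun := fun p i => p.1 i.succ
      invFun := fun f => ⟨Fin.cons 1 f, rfl⟩
      left_inv := by
        rintro ⟨p, h1⟩
        apply Subtype.ext
        funext i
        refine Fin.cases ?_ (fun j => ?_) i
        · exact h1.symm
        · rfl
      right_inv := by
        intro f
        funext i
        rfl }
  rw [Fintype.card_congr e]
  simp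

lemma rank_xg : (x0 K k * g0 K (k + 2)).rank = 2 ^ (k + 1) := by
  have h1 : Tn (Cf k (cm K * am K) 1) * Tn (Cf k (cm K) (Zm K)) = Tn (Cf k (cm K) (Zm K)) := by
    rw [Cf_mul, one_mul]
    congr 2
    ext i j
    fin_cases i <;> fin_cases j <;> simp [cm, am, Matrix.mul_apply, Fin.sum_univ_two]
  have h2 : Tn (Cf k (cm K) (Zm K)) * Tn (Cf k (am K) (Zm K)) = Tn (Cf k (cm K * am K) 1) := by
    rw [Cf_mul, Zm_sq]
  have h3 : (Tn (Cf k (cm K * am K) 1) : Matrix (Sx (k + 2)) (Sx (k + 2)) K).rank =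
      2 ^ (k + 1) := by
    classical
    rw [Cf_diag, Matrix.rank_diagonal, ← card_Sp1 (k := k)]
    apply Fintype.card_congr
    apply Equiv.subtypeEquivRight
    intro p
    by_cases h : p 0 = 1 <;> simp [h]
  rw [x0_g0]
  apply le_antisymm
  · rw [← h1, ← h3]
    exact Matrix.rank_mul_le_left _ _
  · rw [← h3, ← h2]
    exact Matrix.rank_mul_le_left _ _

end irr

end TRSpin

namespace TR

open TRSpin

/-- S-E2: the spin representation of `GSpin_(2n+1)` on `K^(2^n)`, `n = 1, 2 mod 4`. -/
theorem strong_spin (K : Type*) [Field K] [CharZero K] {n : ℕ} (hn : n % 4 = 1 ∨ n % 4 = 2)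
    (hn5 : 5 ≤ n) :
    ∃ (m : Type) (_ : Fintype m) (_ : DecidableEq m)
      (J : Matrix m m K) (G : Subgroup (Matrix.GeneralLinearGroup m K)) (π : Matrix m m K),
      Fintype.card m = 2 ^ n ∧ IsStrongMTPair ⊥ J G π ∧
      IsSplit J G (fun _ : Unit => (⊤ : Submodule K (m → K))) ∧
      (∃ u ∈ G, IsQuadraticOn u ⊤ (2 ^ (n - 2))) ∧
      (∃ u ∈ G, IsQuadraticOn u ⊤ (2 ^ (n - 1))) ∧
      ¬ IsFull J G (fun _ : Unit => (⊤ : Submodule K (m → K))) := by
  obtain ⟨k, rfl⟩ : ∃ k, n = k + 2 := ⟨n - 2, by omega⟩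
  have hJt : (JS K (k + 2)).transpose = -JS K (k + 2) := JS_t hn
  have hJd : (JS K (k + 2)).det ≠ 0 := JS_det hn
  set V := VS K (k + 2) with hV
  set P0 := x0 K k * y0 K k with hP0
  have hsub : ∀ P ∈ OH V (x0 K k) (y0 K k), P ∈ HypSet V := fun P hP =>
    OH_hyp VS_cliff (jw_mem 0 mem_cm) (jw_mem 0 mem_am) x0_sq y0_sq x0_y0 hP
  have hee : (-1 : K) ^ (k + 2) * (-1 : K) ^ (k + 2) = 1 := by
    rw [← mul_pow]; simp
  have hlag : ∀ P ∈ OH V (x0 K k) (y0 K k), P ∈ LagSet (JS K (k + 2)) := fun P hP =>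
    hyp_lag hee JS_VS (hsub P hP)
  have hEN : EN V (x0 K k) (y0 K k) ≤ GenG (OH V (x0 K k) (y0 K k)) :=
    EN_le_gen x0_sq y0_sq x0_y0
  have hquad : ∀ w ∈ V, w * x0 K k + x0 K k * w = 0 → w * y0 K k + y0 K k * w = 0 →
      ∀ r, (x0 K k * w).rank = r → ∃ u ∈ GenG (OH V (x0 K k) (y0 K k)),
        IsQuadraticOn u (⊤ : Submodule K (Sx (k + 2) → K)) r := by
    intro w hw hwx hwy r hr
    have hz := eich_sq x0_sq hwx
    obtain ⟨u, hu⟩ := unip_ex hz
    refine ⟨u, hEN (Subgroup.subset_closure ⟨w, hw, hwx, hwy, Or.inl hu⟩), ?_, ?_⟩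
    · intro v _
      rw [hu, add_sub_cancel_left, Matrix.mulVec_mulVec, hz, Matrix.zero_mulVec]
    · rw [hu, add_sub_cancel_left, Submodule.map_top, ← Matrix.rank, hr]
  refine ⟨Sx (k + 2), inferInstance, inferInstance, JS K (k + 2),
    GenG (OH V (x0 K k) (y0 K k)), P0, ?_, ?_, ?_, ?_, ?_, ?_⟩
  · simp
  · exact strong_of_orbit_self hJt hJd _ _ hlag hEN
  · exact split_of_irr (fun P hP => (hlag P hP).1) (fun U hU => spin_irr U hU)
  · exact hquad _ (jw_mem 1 mem_cm) (jw_orth one_ne mem_cm mem_cm)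
      (jw_orth one_ne mem_cm mem_am) _ rank_xz
  · exact hquad _ g0_mem (g0_orth 0 mem_cm) (g0_orth 0 mem_am) _ rank_xg
  · intro hfull
    set z : Sx (k + 2) := fun _ => 0 with hz
    set w : Sx (k + 2) := fun _ => 1 with hw
    have hzw' : w ≠ z := by
      intro h
      have := congrFun h 0
      simp [hz, hw] at this
    set N : Matrix (Sx (k + 2)) (Sx (k + 2)) K := Matrix.single z w 1 with hN
    have hNN : N * N = 0 := Matrix.single_mul_single_of_ne _ _ _ _ hzw' _
    have hleft : ∀ (A : Matrix (Sx (k + 2)) (Sx (k + 2)) K) y, (N * A) z y = A w y := by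
      intro A y
      rw [Matrix.mul_apply, Finset.sum_eq_single w]
      · simp [hN]
      · intro b _ hb
        simp [hN, Matrix.single_apply, Ne.symm hb]
      · intro h; exact absurd (Finset.mem_univ _) h
    have hright : ∀ (A : Matrix (Sx (k + 2)) (Sx (k + 2)) K) x y,
        (A * N) x y = if y = w then A x z else 0 := by
      intro A x y
      rw [Matrix.mul_apply, Finset.sum_eq_single z]
      · by_cases h : y = w
        · subst h; simp [hN]
        · simp [hN, Matrix.single_apply, h, Ne.symm h]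
      · intro b _ hb
        simp [hN, Matrix.single_apply, Ne.symm hb]
      · intro h; exact absurd (Finset.mem_univ _) h
    have hJf : ∀ (l : ℕ) (a : Fin 2), a ≠ 1 → Jf K l a 0 = 0 := by
      intro l a ha
      have ha0 : a = 0 := by omega
      subst ha0
      unfold Jf
      split_ifs <;> simp [Xm, Ym]
    have hJ : ∀ x, x ≠ w → JS K (k + 2) x z = 0 := by
      intro x hx
      obtain ⟨i, hi⟩ := Function.ne_iff.mp hx
      exact Finset.prod_eq_zero (Finset.mem_univ i) (hJf _ _ hi)
    have hsym : (JS K (k + 2) * N).transpose = JS K (k + 2) * N := by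
      ext x y
      rw [Matrix.transpose_apply, hright, hright]
      by_cases hx : x = w <;> by_cases hy : y = w
      · rw [hx, hy]
      · rw [if_pos hx, if_neg hy, hJ y hy]
      · rw [if_neg hx, if_pos hy, hJ x hx]
      · rw [if_neg hx, if_neg hy]
    have hsp : N.transpose * JS K (k + 2) + JS K (k + 2) * N = 0 := by
      rw [Matrix.transpose_mul, hJt, mul_neg] at hsym
      rw [← hsym]; abel
    let t : Matrix.GeneralLinearGroup (Sx (k + 2)) K :=
      ⟨1 + N, 1 - N, one_add_mul hNN, one_sub_mul hNN⟩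
    have ht : t ∈ GenG (OH V (x0 K k) (y0 K k)) := by
      apply hfull t ⟨1, ?_⟩ (fun _ _ _ => trivial)
      rw [one_smul]
      exact isom_one_add hNN hsp
    have hle : GenG (OH V (x0 K k) (y0 K k)) ≤ Nrm (V * V) :=
      GenG_le (Nrm_closed _) (fun P hP => hyp_nrm VS_cliff (hsub P hP))
    have hP0v : P0 ∈ V * V := Submodule.mul_mem_mul (jw_mem 0 mem_cm) (jw_mem 0 mem_am)
    have hZ := hle ht P0 hP0v
    change (1 + N) * P0 * (1 - N) ∈ V * V at hZ
    have hd : hammingDist z w = k + 2 := by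
      rw [hammingDist]
      have : Finset.univ.filter (fun i => z i ≠ w i) = Finset.univ := by
        ext i; simp [hz, hw]
      rw [this, Finset.card_univ, Fintype.card_fin]
    have hfar := VV_far hZ (p := z) (q := w) (by rw [hd]; omega)
    have e : (1 + N) * P0 * (1 - N) = P0 + N * P0 - P0 * N - N * (P0 * N) := by
      simp only [add_mul, mul_sub, one_mul, mul_one, mul_assoc]
      abel
    have a1 : P0 z w = 0 := VV_far hP0v (by rw [hd]; omega)
    have hP0d : P0 = loc 0 (cm K * am K) := by rw [hP0, jw_mul_same]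
    have a2 : P0 w w = 1 := by
      rw [hP0d, loc_apply, if_pos (fun _ _ => rfl), mul_one]
      simp [hw, cm, am, Matrix.mul_apply, Fin.sum_univ_two]
    have a3 : P0 z z = 0 := by
      rw [hP0d, loc_apply, if_pos (fun _ _ => rfl), mul_one]
      simp [hz, cm, am, Matrix.mul_apply, Fin.sum_univ_two]
    have a4 : P0 w z = 0 := VV_far hP0v (by rw [hammingDist_comm, hd]; omega)
    rw [e, Matrix.sub_apply, Matrix.sub_apply, Matrix.add_apply, hleft, hleft, hright, hright,
      if_pos rfl, if_pos rfl, a1, a2, a3, a4] at hfar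
    norm_num at hfar

end TR
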