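import Pool.Agent.Helper10.TR.Defs

/-!
# TR-CY: coordinates in cyclic extensions of distinct prime degrees
-/

set_option autoImplicit false

namespace Pool.Agent.Helper83.TRC

open Pool.Agent.Helper10.TR (ln)

noncomputable section

/-- automorphisms of an intermediate field extend to the complex numbers -/
theorem ext_aut (K : Subfield ℂ) (L : IntermediateField K ℂ) (τ : L ≃ₐ[K] L) :
    ∃ σ : ℂ ≃+* ℂ, ∀ z : L, σ (z : ℂ) = (τ z : ℂ) := by
  obtain ⟨ι, v, hv⟩ := exists_isTranscendenceBasis' L ℂ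
  letI := IsAlgClosed.isAlgClosure_of_transcendence_basis v hv
  let e : Algebra.adjoin L (Set.range v) ≃+* Algebra.adjoin L (Set.range v) :=
    (hv.1.aevalEquiv.symm.toRingEquiv.trans (MvPolynomial.mapEquiv ι τ.toRingEquiv)).trans
      hv.1.aevalEquiv.toRingEquiv
  refine ⟨IsAlgClosure.equivOfEquiv ℂ ℂ e, fun z => ?_⟩
  have h1 := IsAlgClosure.equivOfEquiv_algebraMap ℂ ℂ e (algebraMap L _ z)
  have h2 : e (algebraMap L _ z) = algebraMap L _ (τ z) := by
    have h3 : hv.1.aevalEquiv.symm (algebraMap L _ z) = MvPolynomial.C z := by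
      rw [AlgEquiv.symm_apply_eq]
      exact (hv.1.aevalEquiv.commutes z).symm
    have h4 : hv.1.aevalEquiv (MvPolynomial.C (τ z)) = algebraMap L _ (τ z) := hv.1.aevalEquiv.commutes (τ z)
    show hv.1.aevalEquiv (MvPolynomial.map (τ : L →+* L) (hv.1.aevalEquiv.symm (algebraMap L _ z))) = _
    rw [h3, MvPolynomial.map_C]
    exact h4
  rw [h2] at h1
  exact h1

/-- the automorphisms over `K` of a cyclic extension of degree `l` -/
theorem two_facts (K : Subfield ℂ) (L : IntermediateField K ℂ) [IsGalois K L] {l : ℕ} (hl : l.Prime)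
    (hf : Module.finrank K L = l) {x : ℂ} (hx : x ∉ K) (hxL : x ∈ L) :
    (∃ σ : ℂ ≃+* ℂ, (∀ z ∈ K, σ z = z) ∧ σ x ≠ x) ∧
      ∀ σ : ℂ ≃+* ℂ, (∀ z ∈ K, σ z = z) → σ^[l] x = x := by
  haveI : FiniteDimensional K L := Module.finite_of_finrank_pos (by rw [hf]; exact hl.pos)
  constructor
  · have h1 : (⟨x, hxL⟩ : L) ∉ (⊥ : IntermediateField K L) := by
      intro h
      rw [IntermediateField.mem_bot] at h
      obtain ⟨y, hy⟩ := h
      have := congrArg (fun z : L => (z : ℂ)) hy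
      simp only at this
      exact hx (this ▸ y.2)
    rw [IsGalois.mem_bot_iff_fixed] at h1
    push Not at h1
    obtain ⟨τ, hτ⟩ := h1
    obtain ⟨σ, hσ⟩ := ext_aut K L τ
    refine ⟨σ, fun z hz => ?_, fun h => hτ (Subtype.ext ?_)⟩
    · have h2 := hσ (algebraMap K L ⟨z, hz⟩)
      rw [τ.commutes] at h2
      exact h2
    · have h2 := hσ ⟨x, hxL⟩
      rw [← h2]
      exact h
  · intro σ hσ
    let s : ℂ ≃ₐ[K] ℂ := { σ with commutes' := fun z => hσ _ z.2 }
    have h1 : (AlgEquiv.restrictNormalHom L s) ^ l = 1 := by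
      have : Nat.card (L ≃ₐ[K] L) = l := by rw [IsGalois.card_aut_eq_finrank, hf]
      rw [← this]
      exact pow_card_eq_one'
    have h2 : AlgEquiv.restrictNormalHom L (s ^ l) = 1 := by rw [map_pow, h1]
    have h3 : ((AlgEquiv.restrictNormalHom L (s ^ l)) ⟨x, hxL⟩ : ℂ) = (s ^ l) x :=
      AlgEquiv.restrictNormal_commutes (s ^ l) L ⟨x, hxL⟩
    rw [h2] at h3
    have h4 : ∀ (k : ℕ) (y : ℂ), (s ^ k) y = σ^[k] y := by
      intro k
      induction k with
      | zero => intro y; rfl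
      | succ k ih =>
        intro y
        rw [pow_succ, AlgEquiv.mul_apply, ih, Function.iterate_succ_apply]
        rfl
    rw [← h4, ← h3]
    rfl

theorem iter_iff {l : ℕ} (hl : l.Prime) {f : ℂ → ℂ} {x : ℂ} (h : f^[l] x = x) (h' : f x ≠ x) (k : ℕ) :
    f^[k] x = x ↔ l ∣ k := by
  have h1 : Function.minimalPeriod f x ∣ l := Function.IsPeriodicPt.minimalPeriod_dvd h
  have h2 : Function.minimalPeriod f x = l := by
    rcases (Nat.dvd_prime hl).1 h1 with h3 | h3
    · exact absurd (Function.minimalPeriod_eq_one_iff_isFixedPt.1 h3) h'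
    · exact h3
  rw [← h2, ← Function.isPeriodicPt_iff_minimalPeriod_dvd]
  rfl

theorem exists_all (K : Subfield ℂ) {n : ℕ} (x : Fin n → ℂ) (l : Fin n → ℕ) (hl : Function.Injective l)
    (S : Finset (Fin n)) (hp : ∀ r ∈ S, (l r).Prime)
    (h1 : ∀ r ∈ S, ∃ σ : ℂ ≃+* ℂ, (∀ z ∈ K, σ z = z) ∧ σ (x r) ≠ x r)
    (h2 : ∀ r ∈ S, ∀ σ : ℂ ≃+* ℂ, (∀ z ∈ K, σ z = z) → σ^[l r] (x r) = x r) :
    ∃ σ : ℂ ≃+* ℂ, (∀ z ∈ K, σ z = z) ∧ ∀ r ∈ S, σ (x r) ≠ x r := by
  induction S using Finset.induction_on with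
  | empty => exact ⟨RingEquiv.refl ℂ, fun _ _ => rfl, fun r hr => absurd hr (Finset.notMem_empty r)⟩
  | insert a T ha ih =>
    obtain ⟨g, hgK, hg⟩ := ih (fun r hr => hp r (Finset.mem_insert_of_mem hr))
      (fun r hr => h1 r (Finset.mem_insert_of_mem hr)) (fun r hr => h2 r (Finset.mem_insert_of_mem hr))
    by_cases hga : g (x a) = x a
    · obtain ⟨t, htK, ht⟩ := h1 a (Finset.mem_insert_self a T)
      have hcoe : ∀ (k : ℕ) (y : ℂ), (t ^ k) y = t^[k] y := by
        intro k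
        induction k with
        | zero => intro y; rfl
        | succ k ih =>
          intro y
          rw [pow_succ, RingAut.mul_apply, ih, Function.iterate_succ_apply]
      have hK : ∀ k : ℕ, ∀ z ∈ K, t^[k] z = z := fun k z hz => Function.iterate_fixed (htK z hz) k
      refine ⟨g * t ^ (∏ j ∈ T, l j), fun z hz => ?_, fun r hr => ?_⟩
      · rw [RingAut.mul_apply, hcoe, hK _ z hz, hgK z hz]
      · rw [RingAut.mul_apply, hcoe]
        rcases Finset.mem_insert.1 hr with rfl | hr'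
        · intro h
          have h3 : t^[∏ j ∈ T, l j] (x r) = x r := g.injective (h.trans hga.symm)
          rw [iter_iff (hp r hr) (h2 r hr t htK) ht] at h3
          obtain ⟨j, hj, hjd⟩ := (Prime.dvd_finsetProd_iff (hp r hr).prime _).1 h3
          have := (Nat.prime_dvd_prime_iff_eq (hp r hr) (hp j (Finset.mem_insert_of_mem hj))).1 hjd
          exact ha (hl this ▸ hj)
        · have h3 : t^[∏ j ∈ T, l j] (x r) = x r := by
            obtain ⟨m, hm⟩ := Finset.dvd_prod_of_mem l hr'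
            rw [hm, Function.iterate_mul]
            exact Function.iterate_fixed (h2 r hr t htK) m
          rw [h3]
          exact hg r hr'
    · exact ⟨g, hgK, fun r hr => by
        rcases Finset.mem_insert.1 hr with rfl | hr'
        · exact hga
        · exact hg r hr'⟩

/-- **TR-CY** -/
theorem cyc_cond (K : Subfield ℂ) {n : ℕ} (e : Fin n → ℕ) (x : Fin n → ℂ) (l : Fin n → ℕ) (hl : Function.Injective l)
    (h : ∀ r, (e r = 1 ∧ x r ∈ K) ∨ ((l r).Prime ∧ e r < l r ∧ x r ∉ K ∧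
      ∃ L : IntermediateField K ℂ, IsGalois K L ∧ Module.finrank K L = l r ∧ x r ∈ L)) :
    ∃ σ : ℂ ≃+* ℂ, (∀ z ∈ K, σ z = z) ∧ ∀ r : Fin n, 2 ≤ e r →
      ∃ l' : ℕ, l'.Prime ∧ e r < l' ∧ l' ∣ ln σ x (r + 1) / ln σ x r := by
  classical
  have h' : ∀ r, x r ∉ K → (l r).Prime ∧ e r < l r ∧
      ∃ L : IntermediateField K ℂ, IsGalois K L ∧ Module.finrank K L = l r ∧ x r ∈ L := by
    intro r hr
    rcases h r with h1 | h1
    · exact absurd h1.2 hr
    · exact ⟨h1.1, h1.2.1, h1.2.2.2⟩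
  have two : ∀ r, x r ∉ K → (∃ σ : ℂ ≃+* ℂ, (∀ z ∈ K, σ z = z) ∧ σ (x r) ≠ x r) ∧
      ∀ σ : ℂ ≃+* ℂ, (∀ z ∈ K, σ z = z) → σ^[l r] (x r) = x r := by
    intro r hr
    obtain ⟨hp, _, L, hL, hf, hxL⟩ := h' r hr
    haveI := hL
    exact two_facts K L hp hf hr hxL
  obtain ⟨σ, hσK, hσ⟩ := exists_all K x l hl (Finset.univ.filter fun r => x r ∉ K)
    (fun r hr => (h' r (Finset.mem_filter.1 hr).2).1)
    (fun r hr => (two r (Finset.mem_filter.1 hr).2).1)
    (fun r hr => (two r (Finset.mem_filter.1 hr).2).2)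
  have hit : ∀ r, x r ∉ K → ∀ k, σ^[k] (x r) = x r ↔ l r ∣ k := fun r hr k =>
    iter_iff (h' r hr).1 ((two r hr).2 σ hσK) (hσ r (Finset.mem_filter.2 ⟨Finset.mem_univ _, hr⟩)) k
  -- the lengths
  have hln : ∀ s : ℕ, ln σ x s = ∏ j ∈ Finset.univ.filter (fun j => x j ∉ K ∧ (j : ℕ) < s), l j := by
    intro s
    refine IsLeast.csInf_eq ⟨⟨?_, fun j hj => ?_⟩, fun k hk => ?_⟩
    · exact Nat.one_le_iff_ne_zero.2 (Finset.prod_ne_zero_iff.2 fun j hj =>
        (h' j (Finset.mem_filter.1 hj).2.1).1.ne_zero)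
    · by_cases hjK : x j ∈ K
      · exact Function.iterate_fixed (hσK _ hjK) _
      · exact (hit j hjK _).2 (Finset.dvd_prod_of_mem l (Finset.mem_filter.2 ⟨Finset.mem_univ _, hjK, hj⟩))
    · refine Nat.le_of_dvd hk.1 (Finset.prod_dvd_of_isRelPrime (fun i hi j hj hij => ?_) fun j hj => ?_)
      · exact Nat.coprime_iff_isRelPrime.1 ((Nat.coprime_primes (h' i (Finset.mem_filter.1 hi).2.1).1
          (h' j (Finset.mem_filter.1 hj).2.1).1).2 fun hh => hij (hl hh))
      · exact (hit j (Finset.mem_filter.1 hj).2.1 k).1 (hk.2 j (Finset.mem_filter.1 hj).2.2)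
  refine ⟨σ, hσK, fun r hr => ?_⟩
  have hrK : x r ∉ K := by
    rcases h r with h1 | h1
    · exact absurd h1.1 (by omega)
    · exact h1.2.2.1
  refine ⟨l r, (h' r hrK).1, (h' r hrK).2.1, ?_⟩
  have hsplit : Finset.univ.filter (fun j => x j ∉ K ∧ (j : ℕ) < (r : ℕ) + 1) =
      insert r (Finset.univ.filter (fun j => x j ∉ K ∧ (j : ℕ) < (r : ℕ))) := by
    ext j
    simp only [Finset.mem_filter, Finset.mem_univ, true_and, Finset.mem_insert]
    constructor
    · rintro ⟨h1, h2⟩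
      by_cases hj : j = r
      · exact Or.inl hj
      · refine Or.inr ⟨h1, ?_⟩
        have : (j : ℕ) ≠ r := fun h => hj (Fin.ext h)
        omega
    · rintro (rfl | ⟨h1, h2⟩)
      · exact ⟨hrK, by omega⟩
      · exact ⟨h1, by omega⟩
  have hpos : 0 < ln σ x r := by
    rw [hln]
    exact Finset.prod_pos fun j hj => (h' j (Finset.mem_filter.1 hj).2.1).1.pos
  have : ln σ x (r + 1) = l r * ln σ x r := by
    rw [hln, hln, hsplit, Finset.prod_insert (by simp)]
  rw [this, Nat.mul_div_cancel _ hpos]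

end

end Pool.Agent.Helper83.TRC
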