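import Pool.Agent.Helper93.SR.Orb

/-!
Cocharacters of spin groups from hyperbolic pairs of Clifford vectors.
-/

set_option linter.unusedSectionVars false

open Module MTPairs MTP

namespace TRSpin

variable {K : Type*} [Field K] {m : Type*} [Fintype m] [DecidableEq m]

/-- The elements of `V` are Clifford vectors. -/
def IsCliff (V : Submodule K (Matrix m m K)) : Prop :=
  ∀ v ∈ V, ∀ w ∈ V, ∃ c : K, v * w + w * v = c • (1 : Matrix m m K)

/-- The idempotents of the hyperbolic pairs. -/
def HypSet (V : Submodule K (Matrix m m K)) : Set (Matrix m m K) :=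
  {P | ∃ x ∈ V, ∃ y ∈ V, x * x = 0 ∧ y * y = 0 ∧ x * y + y * x = 1 ∧ P = x * y}

lemma xyx {x y : Matrix m m K} (hx : x * x = 0) (h : x * y + y * x = 1) : x * y * x = x := by
  have h1 : y * x = 1 - x * y := by rw [← h]; abel
  rw [mul_assoc, h1, mul_sub, mul_one, ← mul_assoc, hx, zero_mul, sub_zero]

lemma yxy {x y : Matrix m m K} (hy : y * y = 0) (h : x * y + y * x = 1) : y * x * y = y := by
  have h1 : x * y = 1 - y * x := by rw [← h]; abel
  rw [mul_assoc, h1, mul_sub, mul_one, ← mul_assoc, hy, zero_mul, sub_zero]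

lemma hyp_idem {x y : Matrix m m K} (hx : x * x = 0) (h : x * y + y * x = 1) :
    x * y * (x * y) = x * y := by
  rw [← mul_assoc, xyx hx h]

lemma hyp_lag {V : Submodule K (Matrix m m K)} {J : Matrix m m K} {e : K} (he : e * e = 1)
    (hJ : ∀ v ∈ V, v.transpose * J = e • (J * v)) {P : Matrix m m K} (hP : P ∈ HypSet V) :
    P ∈ LagSet J := by
  obtain ⟨x, hx, y, hy, h1, h2, h3, rfl⟩ := hP
  refine ⟨hyp_idem h1 h3, ?_⟩
  rw [Matrix.transpose_mul, mul_assoc, hJ x hx, mul_smul_comm, ← mul_assoc, hJ y hy,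
    smul_mul_assoc, smul_smul, he, one_smul, mul_assoc, ← mul_add, add_comm, h3, mul_one]

lemma cliff_sq [CharZero K] {V : Submodule K (Matrix m m K)} (hV : IsCliff V)
    {w : Matrix m m K} (hw : w ∈ V) : ∃ c : K, w * w = c • (1 : Matrix m m K) := by
  obtain ⟨c, hc⟩ := hV w hw w hw
  have h2 : (2 : K) ≠ 0 := two_ne_zero
  refine ⟨2⁻¹ * c, ?_⟩
  rw [mul_smul, ← hc]
  match_scalars
  field_simp
  ring

/-- Eichler transformations preserve the space of Clifford vectors. -/
lemma eich_V [CharZero K] {V : Submodule K (Matrix m m K)} (hV : IsCliff V)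
    {x w v : Matrix m m K} (hx : x ∈ V) (hw : w ∈ V) (hv : v ∈ V) (h1 : x * x = 0)
    (hwx : w * x + x * w = 0) : (1 + x * w) * v * (1 - x * w) ∈ V := by
  obtain ⟨a, ha⟩ := hV v hv x hx
  obtain ⟨b, hb⟩ := hV w hw v hv
  obtain ⟨c, hc⟩ := cliff_sq hV hw
  have ewx : w * x = -(x * w) := eq_neg_of_add_eq_zero_left hwx
  have e1 : v * x = a • 1 - x * v := by rw [← ha]; abel
  have e2 : w * v = b • 1 - v * w := by rw [← hb]; abel
  have e3 : x * w * v - v * (x * w) = b • x - a • w := by
    calc x * w * v - v * (x * w) = x * (w * v) - (v * x) * w := by simp only [mul_assoc]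
      _ = b • x - a • w := by
        rw [e1, e2]
        simp only [mul_sub, sub_mul, mul_smul_comm, smul_mul_assoc, mul_one, one_mul, mul_assoc]
        abel
  have e4 : x * w * v * (x * w) = (a * c) • x := by
    calc x * w * v * (x * w) = x * w * (v * x) * w := by simp only [mul_assoc]
      _ = a • (x * (w * w)) - x * (w * x) * (v * w) := by
        rw [e1]
        simp only [mul_sub, sub_mul, mul_smul_comm, smul_mul_assoc, mul_one, mul_assoc]
      _ = (a * c) • x := by
        rw [ewx, mul_neg, ← mul_assoc x x w, h1, zero_mul, neg_zero, zero_mul, sub_zero, hc,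
          mul_smul_comm, mul_one, smul_smul]
  have e : (1 + x * w) * v * (1 - x * w) = v + (x * w * v - v * (x * w)) -
      x * w * v * (x * w) := by
    simp only [add_mul, mul_sub, one_mul, mul_one]
    abel
  rw [e, e3, e4]
  exact V.sub_mem (V.add_mem hv (V.sub_mem (V.smul_mem _ hx) (V.smul_mem _ hw)))
    (V.smul_mem _ hx)

lemma eich_sq {x w : Matrix m m K} (h1 : x * x = 0) (hwx : w * x + x * w = 0) :
    x * w * (x * w) = 0 := by
  have ewx : w * x = -(x * w) := eq_neg_of_add_eq_zero_left hwx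
  rw [mul_assoc, ← mul_assoc w, ewx, neg_mul, mul_neg, mul_assoc, ← mul_assoc, h1, zero_mul,
    neg_zero]

lemma val_inv {u : Matrix.GeneralLinearGroup m K} {z : Matrix m m K}
    (hu : (u : Matrix m m K) = 1 + z) (hz : z * z = 0) :
    ((u⁻¹ : Matrix.GeneralLinearGroup m K) : Matrix m m K) = 1 - z := by
  have e : u = ⟨1 + z, 1 - z, one_add_mul hz, one_sub_mul hz⟩ := Units.ext hu
  rw [e]; rfl

lemma eich_hyp [CharZero K] {V : Submodule K (Matrix m m K)} (hV : IsCliff V)
    {x w : Matrix m m K} (hx : x ∈ V) (hw : w ∈ V) (h1 : x * x = 0)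
    (hwx : w * x + x * w = 0) {P : Matrix m m K} (hP : P ∈ HypSet V) :
    (1 + x * w) * P * (1 - x * w) ∈ HypSet V := by
  obtain ⟨a, ha, b, hb, k1, k2, k3, rfl⟩ := hP
  have hz := eich_sq h1 hwx
  have hvv : (1 - x * w) * (1 + x * w) = 1 := one_sub_mul hz
  have hvv' : (1 + x * w) * (1 - x * w) = 1 := one_add_mul hz
  have hmul : ∀ s t, ((1 + x * w) * s * (1 - x * w)) * ((1 + x * w) * t * (1 - x * w)) =
      (1 + x * w) * (s * t) * (1 - x * w) := by
    intro s t
    calc ((1 + x * w) * s * (1 - x * w)) * ((1 + x * w) * t * (1 - x * w))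
        = (1 + x * w) * s * ((1 - x * w) * (1 + x * w)) * t * (1 - x * w) := by
          simp only [mul_assoc]
      _ = _ := by rw [hvv, mul_one]; simp only [mul_assoc]
  refine ⟨_, eich_V hV hx hw ha h1 hwx, _, eich_V hV hx hw hb h1 hwx, ?_, ?_, ?_, ?_⟩
  · rw [hmul, k1, mul_zero, zero_mul]
  · rw [hmul, k2, mul_zero, zero_mul]
  · rw [hmul, hmul, ← add_mul, ← mul_add, k3, mul_one, hvv']
  · rw [hmul]

lemma eich_mem [CharZero K] {V : Submodule K (Matrix m m K)} (hV : IsCliff V)
    {x w : Matrix m m K} (hx : x ∈ V) (hw : w ∈ V) (h1 : x * x = 0)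
    (hwx : w * x + x * w = 0) {u : Matrix.GeneralLinearGroup m K}
    (hu : (u : Matrix m m K) = 1 + x * w) : u ∈ NormG (HypSet V) := by
  intro P hP
  rw [val_inv hu (eich_sq h1 hwx), hu]
  refine ⟨eich_hyp hV hx hw h1 hwx hP, ?_⟩
  have h := eich_hyp hV hx (V.neg_mem hw) h1 (by
    rw [neg_mul, mul_neg, ← neg_add, hwx, neg_zero]) hP
  rwa [mul_neg, ← sub_eq_add_neg, sub_neg_eq_add] at h

/-- The Eichler transformations of a hyperbolic pair. -/
def Eich (V : Submodule K (Matrix m m K)) (x y : Matrix m m K) :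
    Set (Matrix.GeneralLinearGroup m K) :=
  {u | ∃ w ∈ V, w * x + x * w = 0 ∧ w * y + y * w = 0 ∧
    ((u : Matrix m m K) = 1 + x * w ∨ (u : Matrix m m K) = 1 + y * w)}

/-- The group generated by the Eichler transformations of a hyperbolic pair. -/
def EN (V : Submodule K (Matrix m m K)) (x y : Matrix m m K) :
    Subgroup (Matrix.GeneralLinearGroup m K) := Subgroup.closure (Eich V x y)

/-- The orbit of the idempotent of a hyperbolic pair. -/
abbrev OH (V : Submodule K (Matrix m m K)) (x y : Matrix m m K) : Set (Matrix m m K) :=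
  OrbN (EN V x y) (x * y)

lemma EN_le [CharZero K] {V : Submodule K (Matrix m m K)} (hV : IsCliff V)
    {x y : Matrix m m K} (hx : x ∈ V) (hy : y ∈ V) (h1 : x * x = 0) (h2 : y * y = 0) :
    EN V x y ≤ NormG (HypSet V) := by
  rw [EN, Subgroup.closure_le]
  rintro u ⟨w, hw, hwx, hwy, hu | hu⟩
  · exact eich_mem hV hx hw h1 hwx hu
  · exact eich_mem hV hy hw h2 hwy hu

lemma OH_hyp [CharZero K] {V : Submodule K (Matrix m m K)} (hV : IsCliff V)
    {x y : Matrix m m K} (hx : x ∈ V) (hy : y ∈ V) (h1 : x * x = 0) (h2 : y * y = 0)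
    (h3 : x * y + y * x = 1) {P : Matrix m m K} (hP : P ∈ OH V x y) : P ∈ HypSet V := by
  obtain ⟨h, hh, rfl⟩ := hP
  exact (EN_le hV hx hy h1 h2 hh _ ⟨x, hx, y, hy, h1, h2, h3, rfl⟩).1

lemma conj_x {x y w : Matrix m m K} (h1 : x * x = 0) (hwx : w * x + x * w = 0) :
    (1 + x * w) * (x * y) * (1 - x * w) = x * y + -(x * y * (x * w)) := by
  have ewx : w * x = -(x * w) := eq_neg_of_add_eq_zero_left hwx
  have e1 : x * w * (x * y) = 0 := by
    rw [mul_assoc, ← mul_assoc w, ewx, neg_mul, mul_neg, mul_assoc, ← mul_assoc, h1, zero_mul,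
      neg_zero]
  rw [add_mul, one_mul, e1, add_zero, mul_sub, mul_one, sub_eq_add_neg]

lemma conj_y {x y w : Matrix m m K} (h2 : y * y = 0) :
    (1 + y * w) * (x * y) * (1 - y * w) = x * y + y * w * (x * y) := by
  have e1 : x * y * (y * w) = 0 := by
    rw [mul_assoc, ← mul_assoc y, h2, zero_mul, mul_zero]
  have e2 : y * w * (x * y) * (y * w) = 0 := by
    rw [mul_assoc, e1, mul_zero]
  rw [add_mul, one_mul, mul_sub, mul_one, add_mul, e1, e2, add_zero, sub_zero]

lemma xyxw {x y w : Matrix m m K} (h1 : x * x = 0) (h3 : x * y + y * x = 1) :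
    x * y * (x * w) = x * w := by
  rw [← mul_assoc, xyx h1 h3]

lemma ywxy {x y w : Matrix m m K} (h2 : y * y = 0) (h3 : x * y + y * x = 1)
    (hwx : w * x + x * w = 0) (hwy : w * y + y * w = 0) : y * w * (x * y) = y * w := by
  have ewx : w * x = -(x * w) := eq_neg_of_add_eq_zero_left hwx
  have ewy : w * y = -(y * w) := eq_neg_of_add_eq_zero_left hwy
  have e : w * (x * y) = x * y * w := by
    rw [← mul_assoc, ewx, neg_mul, mul_assoc, ewy, mul_neg, neg_neg, mul_assoc]
  rw [mul_assoc, e, ← mul_assoc, ← mul_assoc, yxy h2 h3]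

lemma unip_ex {x w : Matrix m m K} (h : x * w * (x * w) = 0) :
    ∃ u : Matrix.GeneralLinearGroup m K, (u : Matrix m m K) = 1 + x * w :=
  ⟨⟨1 + x * w, 1 - x * w, one_add_mul h, one_sub_mul h⟩, rfl⟩

lemma mem_x {V : Submodule K (Matrix m m K)} {x y w : Matrix m m K} (h1 : x * x = 0)
    (h3 : x * y + y * x = 1) (hw : w ∈ V) (hwx : w * x + x * w = 0) (hwy : w * y + y * w = 0) :
    x * y + -(x * w) ∈ OH V x y := by
  obtain ⟨u, hu⟩ := unip_ex (eich_sq h1 hwx)
  refine ⟨u, Subgroup.subset_closure ⟨w, hw, hwx, hwy, Or.inl hu⟩, ?_⟩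
  rw [val_inv hu (eich_sq h1 hwx), hu, conj_x h1 hwx, xyxw h1 h3]

lemma mem_y {V : Submodule K (Matrix m m K)} {x y w : Matrix m m K} (h2 : y * y = 0)
    (h3 : x * y + y * x = 1) (hw : w ∈ V) (hwx : w * x + x * w = 0) (hwy : w * y + y * w = 0) :
    x * y + y * w ∈ OH V x y := by
  obtain ⟨u, hu⟩ := unip_ex (eich_sq h2 hwy)
  refine ⟨u, Subgroup.subset_closure ⟨w, hw, hwx, hwy, Or.inr hu⟩, ?_⟩
  rw [val_inv hu (eich_sq h2 hwy), hu, conj_y h2, ywxy h2 h3 hwx hwy]

/-- The unipotent `1 + x` lies in the group generated by the cocharacters of `P` and `P + x`. -/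
theorem unip_mem' [CharZero K] {Λ : Set (Matrix m m K)} {P x : Matrix m m K} (hP : P ∈ Λ)
    (hPx : P + x ∈ Λ) (h2 : P * x = 0) (h3 : x * x = 0) :
    ∃ u ∈ GenG Λ, (u : Matrix m m K) = 1 + x := by
  refine ⟨⟨1 + x, 1 - x, one_add_mul h3, one_sub_mul h3⟩, ?_, rfl⟩
  rw [GenG, Subgroup.mem_sInf]
  rintro H ⟨hH, hc⟩
  obtain ⟨g1, hg1, e1⟩ := (hc _ hP).2 2 two_ne_zero
  obtain ⟨g2, hg2, e2⟩ := (hc _ hPx).2 2 two_ne_zero
  have e : g1 * (⟨1 + x, 1 - x, one_add_mul h3, one_sub_mul h3⟩ :
      Matrix.GeneralLinearGroup m K) = g2 := by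
    apply Units.ext
    rw [Units.val_mul, e1, e2]
    change _ * (1 + x) = _
    simp only [mul_add, add_mul, sub_mul, one_mul, mul_one, smul_mul_assoc, h2, smul_zero]
    module
  rw [eq_inv_mul_of_mul_eq e]
  exact H.mul_mem (H.inv_mem hg1) hg2

/-- The group of Eichler transformations is contained in the group of its orbit. -/
theorem EN_le_gen [CharZero K] {V : Submodule K (Matrix m m K)} {x y : Matrix m m K}
    (h1 : x * x = 0) (h2 : y * y = 0) (h3 : x * y + y * x = 1) :
    EN V x y ≤ GenG (OH V x y) := by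
  rw [EN, Subgroup.closure_le]
  rintro u ⟨w, hw, hwx, hwy, hu | hu⟩
  · have hz := eich_sq h1 hwx
    have e : x * w * (x * y) = 0 := by
      have ewx : w * x = -(x * w) := eq_neg_of_add_eq_zero_left hwx
      rw [mul_assoc, ← mul_assoc w, ewx, neg_mul, mul_neg, mul_assoc, ← mul_assoc, h1, zero_mul,
        neg_zero]
    obtain ⟨u', hu', e'⟩ := unip_mem (OrbN_self _ _) (mem_x h1 h3 hw hwx hwy)
      (by rw [neg_mul, e, neg_zero]) (by rw [neg_mul_neg, hz])
    have e2 : u' = u⁻¹ := by
      apply Units.ext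
      rw [e', val_inv hu hz, sub_eq_add_neg]
    rw [e2] at hu'
    have := Subgroup.inv_mem _ hu'
    rwa [inv_inv] at this
  · have hz := eich_sq h2 hwy
    obtain ⟨u', hu', e'⟩ := unip_mem' (OrbN_self _ _) (mem_y h2 h3 hw hwx hwy)
      (by rw [mul_assoc, ← mul_assoc y, h2, zero_mul, mul_zero]) hz
    have e2 : u' = u := by
      apply Units.ext
      rw [e', hu]
    rw [e2] at hu'
    exact hu'

lemma Pres_add {U : Submodule K (m → K)} {M N : Matrix m m K} (h1 : Pres U M) (h2 : Pres U N) :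
    Pres U (M + N) := by
  intro v hv
  rw [Matrix.add_mulVec]
  exact U.add_mem (h1 v hv) (h2 v hv)

lemma Pres_smul {U : Submodule K (m → K)} {M : Matrix m m K} (c : K) (h1 : Pres U M) :
    Pres U (c • M) := by
  intro v hv
  rw [Matrix.smul_mulVec]
  exact U.smul_mem _ (h1 v hv)

lemma Pres_neg {U : Submodule K (m → K)} {M : Matrix m m K} (h1 : Pres U M) : Pres U (-M) := by
  have := Pres_smul (-1) h1
  simpa using this

/-- The products of two vectors orthogonal to the hyperbolic pair preserve the invariant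
subspaces. -/
theorem Pres_cliff {V : Submodule K (Matrix m m K)} {x y : Matrix m m K}
    (h1 : x * x = 0) (h2 : y * y = 0) (h3 : x * y + y * x = 1)
    {U : Submodule K (m → K)} (hU : ∀ P ∈ OH V x y, ∀ v ∈ U, P.mulVec v ∈ U) :
    Pres U (x * y) ∧ Pres U (y * x) ∧
    (∀ w ∈ V, w * x + x * w = 0 → w * y + y * w = 0 → Pres U (x * w) ∧ Pres U (y * w)) ∧
    (∀ w w' : Matrix m m K, w * x + x * w = 0 → w * y + y * w = 0 → Pres U (x * w) →
      Pres U (y * w) → Pres U (x * w') → Pres U (y * w') → Pres U (w * w')) := by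
  have q1 : Pres U (x * y) := hU _ (OrbN_self _ _)
  have q2 : Pres U (y * x) := by
    have e : y * x = 1 - x * y := by rw [← h3]; abel
    rw [e]
    refine Pres.sub ?_ q1
    intro v hv
    rwa [Matrix.one_mulVec]
  refine ⟨q1, q2, ?_, ?_⟩
  · intro w hw hwx hwy
    constructor
    · have := Pres.sub q1 (hU _ (mem_x h1 h3 hw hwx hwy))
      rwa [sub_add_cancel_left, neg_neg] at this
    · have := Pres.sub (hU _ (mem_y h2 h3 hw hwx hwy)) q1
      rwa [add_sub_cancel_left] at this
  · intro w w' hwx hwy a1 a2 a3 a4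
    have ewx : w * x = -(x * w) := eq_neg_of_add_eq_zero_left hwx
    have ewy : w * y = -(y * w) := eq_neg_of_add_eq_zero_left hwy
    have b1 := Pres_add (Pres.mul a1 a4) (Pres.mul a2 a3)
    have e : x * w * (y * w') + y * w * (x * w') = -(w * w') := by
      calc x * w * (y * w') + y * w * (x * w')
          = x * (w * y) * w' + y * (w * x) * w' := by simp only [mul_assoc]
        _ = -((x * y + y * x) * (w * w')) := by
            rw [ewx, ewy]
            simp only [mul_neg, neg_mul, add_mul, mul_assoc]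
            abel
        _ = _ := by rw [h3, one_mul]
    rw [e] at b1
    have := Pres_neg b1
    rwa [neg_neg] at this

/-- The torus elements normalise the space of bivectors. -/
theorem hyp_nrm {V : Submodule K (Matrix m m K)} (hV : IsCliff V) {P : Matrix m m K}
    (hP : P ∈ HypSet V) : IsCochar (Nrm (V * V)) P := by
  obtain ⟨x, hx, y, hy, h1, h2, h3, rfl⟩ := hP
  have hPP := hyp_idem h1 h3
  refine ⟨hPP, fun t ht => ⟨⟨t • (x * y) + (1 - x * y), t⁻¹ • (x * y) + (1 - x * y),
    torus_mul hPP ht, by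
    have := torus_mul hPP (inv_ne_zero ht)
    rwa [inv_inv] at this⟩, ?_, rfl⟩⟩
  have ha := torus_mul hPP ht
  have hb : (t⁻¹ • (x * y) + (1 - x * y)) * (t • (x * y) + (1 - x * y)) = 1 := by
    have := torus_mul hPP (inv_ne_zero ht)
    rwa [inv_inv] at this
  have key : ∀ v ∈ V, (t • (x * y) + (1 - x * y)) * v * (t⁻¹ • (x * y) + (1 - x * y)) ∈ V := by
    intro v hv
    obtain ⟨α, hα⟩ := hV v hv y hy
    obtain ⟨β, hβ⟩ := hV v hv x hx
    set g := t • (x * y) + (1 - x * y) with hg
    set g' := t⁻¹ • (x * y) + (1 - x * y) with hg'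
    have c1 : g * x = t • x := by
      rw [hg, add_mul, smul_mul_assoc, sub_mul, one_mul, xyx h1 h3, sub_self, add_zero]
    have c2 : x * g' = x := by
      rw [hg', mul_add, mul_smul_comm, mul_sub, mul_one, ← mul_assoc, h1, zero_mul, smul_zero,
        sub_zero, zero_add]
    have c3 : g * y = y := by
      rw [hg, add_mul, smul_mul_assoc, sub_mul, one_mul, mul_assoc, h2, mul_zero, smul_zero,
        sub_zero, zero_add]
    have c4 : y * g' = t⁻¹ • y := by
      rw [hg', mul_add, mul_smul_comm, mul_sub, mul_one, ← mul_assoc, yxy h2 h3, sub_self,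
        add_zero]
    set u := v - α • x - β • y with hu
    have d1 : u * x + x * u = 0 := by
      calc u * x + x * u = (v * x + x * v) - α • (x * x + x * x) - β • (x * y + y * x) := by
            rw [hu]
            simp only [sub_mul, mul_sub, smul_mul_assoc, mul_smul_comm]
            module
        _ = 0 := by rw [hβ, h1, h3]; simp
    have d2 : u * y + y * u = 0 := by
      calc u * y + y * u = (v * y + y * v) - α • (x * y + y * x) - β • (y * y + y * y) := by
            rw [hu]
            simp only [sub_mul, mul_sub, smul_mul_assoc, mul_smul_comm]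
            module
        _ = 0 := by rw [hα, h2, h3]; simp
    have f1 : u * x = -(x * u) := eq_neg_of_add_eq_zero_left d1
    have f2 : u * y = -(y * u) := eq_neg_of_add_eq_zero_left d2
    have f3 : u * (x * y) = x * y * u := by
      rw [← mul_assoc, f1, neg_mul, mul_assoc, f2, mul_neg, neg_neg, mul_assoc]
    have e : v = u + α • x + β • y := by rw [hu]; abel
    have hmem : u ∈ V := V.sub_mem (V.sub_mem hv (V.smul_mem _ hx)) (V.smul_mem _ hy)
    clear_value u
    have f4 : g * u * g' = u := by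
      have : g * u = u * g := by
        rw [hg, add_mul, mul_add, smul_mul_assoc, mul_smul_comm, f3, sub_mul, mul_sub, f3,
          one_mul, mul_one]
      rw [this, mul_assoc, ha, mul_one]
    clear_value g g'
    have e2 : g * v * g' = u + (α * t) • x + (β * t⁻¹) • y := by
      rw [e, mul_add, mul_add, add_mul, add_mul, f4, mul_smul_comm, mul_smul_comm, c1, c3,
        smul_mul_assoc, smul_mul_assoc, smul_mul_assoc, c2, c4, smul_smul, smul_smul]
    rw [e2]
    exact V.add_mem (V.add_mem hmem (V.smul_mem _ hx)) (V.smul_mem _ hy)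
  intro X hX
  change (t • (x * y) + (1 - x * y)) * X * (t⁻¹ • (x * y) + (1 - x * y)) ∈ V * V
  generalize t • (x * y) + (1 - x * y) = g at *
  generalize t⁻¹ • (x * y) + (1 - x * y) = g' at *
  induction hX using Submodule.mul_induction_on' with
  | mem_mul_mem v hv w hw =>
    have e : g * (v * w) * g' = (g * v * g') * (g * w * g') := by
      calc g * (v * w) * g' = g * v * 1 * w * g' := by
            rw [mul_one]; simp only [mul_assoc]
        _ = _ := by rw [← hb]; simp only [mul_assoc]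
    rw [e]
    exact Submodule.mul_mem_mul (key v hv) (key w hw)
  | add a _ b _ ha' hb' =>
    rw [mul_add, add_mul]
    exact Submodule.add_mem _ ha' hb'

end TRSpin
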