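import Pool.Agent.Helper83.TR.Cliff

/-!
The spin representation of the odd spin groups.
-/

set_option linter.unusedSimpArgs false
set_option linter.unusedSectionVars false

open Module MTPairs MTP

namespace TRSpin

section two
variable (K : Type*) [Field K]

/-- The diagonal sign matrix. -/
def Zm : Matrix (Fin 2) (Fin 2) K := !![1, 0; 0, -1]
/-- Annihilation. -/
def am : Matrix (Fin 2) (Fin 2) K := !![0, 1; 0, 0]
/-- Creation. -/
def cm : Matrix (Fin 2) (Fin 2) K := !![0, 0; 1, 0]
/-- The symmetric flip. -/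
def Xm : Matrix (Fin 2) (Fin 2) K := !![0, 1; 1, 0]
/-- The skew flip. -/
def Ym : Matrix (Fin 2) (Fin 2) K := !![0, 1; -1, 0]

/-- The creation and annihilation matrices. -/
def AC : Set (Matrix (Fin 2) (Fin 2) K) := {am K, cm K}

variable {K}

lemma Zm_sq : Zm K * Zm K = 1 := by
  ext i j; fin_cases i <;> fin_cases j <;> simp [Zm, Matrix.mul_apply, Fin.sum_univ_two]
lemma am_sq : am K * am K = 0 := by
  ext i j; fin_cases i <;> fin_cases j <;> simp [am, Matrix.mul_apply, Fin.sum_univ_two]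
lemma cm_sq : cm K * cm K = 0 := by
  ext i j; fin_cases i <;> fin_cases j <;> simp [cm, Matrix.mul_apply, Fin.sum_univ_two]
lemma cm_am : cm K * am K + am K * cm K = 1 := by
  ext i j; fin_cases i <;> fin_cases j <;> simp [cm, am, Matrix.mul_apply, Fin.sum_univ_two]
lemma cm_Zm : cm K * Zm K = cm K := by
  ext i j; fin_cases i <;> fin_cases j <;> simp [cm, Zm, Matrix.mul_apply, Fin.sum_univ_two]
lemma am_Zm : am K * Zm K = -am K := by
  ext i j; fin_cases i <;> fin_cases j <;> simp [am, Zm, Matrix.mul_apply, Fin.sum_univ_two]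
lemma Zm_eq : Zm K = am K * cm K - cm K * am K := by
  ext i j; fin_cases i <;> fin_cases j <;>
    simp [am, cm, Zm, Matrix.mul_apply, Fin.sum_univ_two]
lemma Zm_t : (Zm K).transpose = Zm K := by
  ext i j; fin_cases i <;> fin_cases j <;> simp [Zm]
lemma Xm_t : (Xm K).transpose = Xm K := by
  ext i j; fin_cases i <;> fin_cases j <;> simp [Xm]
lemma Ym_t : (Ym K).transpose = -Ym K := by
  ext i j; fin_cases i <;> fin_cases j <;> simp [Ym]
lemma Xm_sq : Xm K * Xm K = 1 := by
  ext i j; fin_cases i <;> fin_cases j <;> simp [Xm, Matrix.mul_apply, Fin.sum_univ_two]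
lemma Ym_sq : Ym K * Ym K = -1 := by
  ext i j; fin_cases i <;> fin_cases j <;> simp [Ym, Matrix.mul_apply, Fin.sum_univ_two]
lemma Zm_Xm : Zm K * Xm K = -(Xm K * Zm K) := by
  ext i j; fin_cases i <;> fin_cases j <;> simp [Xm, Zm, Matrix.mul_apply, Fin.sum_univ_two]
lemma Zm_Ym : Zm K * Ym K = -(Ym K * Zm K) := by
  ext i j; fin_cases i <;> fin_cases j <;> simp [Ym, Zm, Matrix.mul_apply, Fin.sum_univ_two]

lemma AC_Zm {B : Matrix (Fin 2) (Fin 2) K} (hB : B ∈ AC K) : B * Zm K = -(Zm K * B) := by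
  rcases hB with rfl | rfl
  · ext i j; fin_cases i <;> fin_cases j <;> simp [am, Zm, Matrix.mul_apply, Fin.sum_univ_two]
  · ext i j; fin_cases i <;> fin_cases j <;> simp [cm, Zm, Matrix.mul_apply, Fin.sum_univ_two]

lemma AC_AC {B C : Matrix (Fin 2) (Fin 2) K} (hB : B ∈ AC K) (hC : C ∈ AC K) :
    ∃ c : K, B * C + C * B = c • (1 : Matrix (Fin 2) (Fin 2) K) := by
  rcases hB with rfl | rfl <;> rcases hC with rfl | rfl
  · exact ⟨0, by rw [am_sq]; simp⟩
  · exact ⟨1, by rw [add_comm, cm_am, one_smul]⟩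
  · exact ⟨1, by rw [cm_am, one_smul]⟩
  · exact ⟨0, by rw [cm_sq]; simp⟩

lemma AC_Xm {B : Matrix (Fin 2) (Fin 2) K} (hB : B ∈ AC K) :
    B.transpose * Xm K = (1 : K) • (Xm K * B) := by
  rcases hB with rfl | rfl
  · ext i j; fin_cases i <;> fin_cases j <;> simp [am, Xm, Matrix.mul_apply, Fin.sum_univ_two]
  · ext i j; fin_cases i <;> fin_cases j <;> simp [cm, Xm, Matrix.mul_apply, Fin.sum_univ_two]

lemma AC_Ym {B : Matrix (Fin 2) (Fin 2) K} (hB : B ∈ AC K) :
    B.transpose * Ym K = (-1 : K) • (Ym K * B) := by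
  rcases hB with rfl | rfl
  · ext i j; fin_cases i <;> fin_cases j <;> simp [am, Ym, Matrix.mul_apply, Fin.sum_univ_two]
  · ext i j; fin_cases i <;> fin_cases j <;> simp [cm, Ym, Matrix.mul_apply, Fin.sum_univ_two]

lemma decomp2 (X : Matrix (Fin 2) (Fin 2) K) :
    X = X 0 0 • (am K * cm K) + X 0 1 • am K + X 1 0 • cm K + X 1 1 • (cm K * am K) := by
  ext i j; fin_cases i <;> fin_cases j <;> simp [am, cm, Matrix.mul_apply, Fin.sum_univ_two]

end two

variable {K : Type*} [Field K] {n : ℕ}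

/-- The index set. -/
abbrev Sx (n : ℕ) : Type := Fin n → Fin 2

/-- Products of tensor products, up to signs. -/
lemma Tn_sign {A B C D : Fin n → Matrix (Fin 2) (Fin 2) K} {s : Fin n → K}
    (h : ∀ k, A k * B k = s k • (C k * D k)) : Tn A * Tn B = (∏ k, s k) • (Tn C * Tn D) := by
  rw [Tn_mul, Tn_mul]
  ext x y
  simp only [Tn, h, Matrix.smul_apply, smul_eq_mul, Finset.prod_mul_distrib]

/-- The Jordan-Wigner matrices. -/
def jw (j : Fin n) (B : Matrix (Fin 2) (Fin 2) K) : Matrix (Sx n) (Sx n) K :=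
  Tn (fun k => if k < j then Zm K else if k = j then B else 1)

/-- The parity matrix. -/
def g0 (K : Type*) [Field K] (n : ℕ) : Matrix (Sx n) (Sx n) K := Tn (fun _ => Zm K)

lemma jw_mul_same (j : Fin n) (B C : Matrix (Fin 2) (Fin 2) K) :
    jw j B * jw j C = loc j (B * C) := by
  rw [jw, jw, Tn_mul, loc]
  congr 1
  funext k
  by_cases h1 : k < j
  · simp [h1, h1.ne, Zm_sq]
  · by_cases h2 : k = j
    · subst h2; simp
    · simp [h1, h2]

lemma jw_anti {i j : Fin n} (hij : i < j) {B C : Matrix (Fin 2) (Fin 2) K} (hB : B ∈ AC K) :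
    jw i B * jw j C = -(jw j C * jw i B) := by
  have h : ∀ k : Fin n, (if k < i then Zm K else if k = i then B else 1) *
      (if k < j then Zm K else if k = j then C else 1) = (if k = i then (-1 : K) else 1) •
      ((if k < j then Zm K else if k = j then C else 1) *
      (if k < i then Zm K else if k = i then B else 1)) := by
    intro k
    by_cases h1 : k < i
    · simp [h1, h1.trans hij, h1.ne]
    · by_cases h2 : k = i
      · subst h2
        simp [hij, AC_Zm hB]
      · simp [h1, h2]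
  have := Tn_sign h
  rw [Finset.prod_ite_eq' Finset.univ i (fun _ => (-1 : K)), if_pos (Finset.mem_univ _)] at this
  rw [jw, jw, this, neg_smul, one_smul]

lemma jw_anti' {i j : Fin n} (hij : i ≠ j) {B C : Matrix (Fin 2) (Fin 2) K} (hB : B ∈ AC K)
    (hC : C ∈ AC K) : jw i B * jw j C = -(jw j C * jw i B) := by
  rcases lt_or_gt_of_ne hij with h | h
  · exact jw_anti h hB
  · rw [jw_anti h hC, neg_neg]

lemma g0_anti (j : Fin n) {B : Matrix (Fin 2) (Fin 2) K} (hB : B ∈ AC K) :
    jw j B * g0 K n = -(g0 K n * jw j B) := by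
  have h : ∀ k : Fin n, (if k < j then Zm K else if k = j then B else 1) * Zm K =
      (if k = j then (-1 : K) else 1) •
      (Zm K * (if k < j then Zm K else if k = j then B else 1)) := by
    intro k
    by_cases h1 : k < j
    · simp [h1, h1.ne]
    · by_cases h2 : k = j
      · subst h2
        simp [AC_Zm hB]
      · simp [h1, h2]
  have := Tn_sign h
  rw [Finset.prod_ite_eq' Finset.univ j (fun _ => (-1 : K)), if_pos (Finset.mem_univ _)] at this
  rw [jw, g0, this, neg_smul, one_smul]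

lemma g0_sq : g0 K n * g0 K n = 1 := by
  rw [g0, Tn_mul, ← Tn_one]
  simp only [Zm_sq]

/-- The generating Clifford vectors. -/
def GS (K : Type*) [Field K] (n : ℕ) : Set (Matrix (Sx n) (Sx n) K) :=
  {v | (∃ j, ∃ B ∈ AC K, v = jw j B) ∨ v = g0 K n}

/-- The space of Clifford vectors. -/
def VS (K : Type*) [Field K] (n : ℕ) : Submodule K (Matrix (Sx n) (Sx n) K) :=
  Submodule.span K (GS K n)

lemma jw_mem (j : Fin n) {B : Matrix (Fin 2) (Fin 2) K} (hB : B ∈ AC K) : jw j B ∈ VS K n :=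
  Submodule.subset_span (Or.inl ⟨j, B, hB, rfl⟩)

lemma g0_mem : g0 K n ∈ VS K n := Submodule.subset_span (Or.inr rfl)

lemma GS_cliff {v w : Matrix (Sx n) (Sx n) K} (hv : v ∈ GS K n) (hw : w ∈ GS K n) :
    ∃ c : K, v * w + w * v = c • (1 : Matrix (Sx n) (Sx n) K) := by
  rcases hv with ⟨i, B, hB, rfl⟩ | rfl <;> rcases hw with ⟨j, C, hC, rfl⟩ | rfl
  · by_cases hij : i = j
    · subst hij
      obtain ⟨c, hc⟩ := AC_AC hB hC
      exact ⟨c, by rw [jw_mul_same, jw_mul_same, ← loc_add, hc, loc_smul, loc_one]⟩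
    · exact ⟨0, by rw [jw_anti' hij hB hC, zero_smul, neg_add_cancel]⟩
  · exact ⟨0, by rw [g0_anti i hB, zero_smul, neg_add_cancel]⟩
  · exact ⟨0, by rw [g0_anti j hC, zero_smul, add_neg_cancel]⟩
  · exact ⟨2, by rw [g0_sq, two_smul]⟩

lemma VS_cliff : IsCliff (VS K n) := by
  intro v hv w hw
  induction hv using Submodule.span_induction with
  | mem v hv =>
    induction hw using Submodule.span_induction with
    | mem w hw => exact GS_cliff hv hw
    | zero => exact ⟨0, by simp⟩
    | add a b _ _ ha hb =>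
      obtain ⟨c, hc⟩ := ha
      obtain ⟨d, hd⟩ := hb
      refine ⟨c + d, ?_⟩
      rw [mul_add, add_mul, add_smul, ← hc, ← hd]; abel
    | smul r a _ ha =>
      obtain ⟨c, hc⟩ := ha
      refine ⟨r * c, ?_⟩
      rw [mul_smul_comm, smul_mul_assoc, ← smul_add, hc, smul_smul]
  | zero => exact ⟨0, by simp⟩
  | add a b _ _ ha hb =>
    obtain ⟨c, hc⟩ := ha
    obtain ⟨d, hd⟩ := hb
    refine ⟨c + d, ?_⟩
    rw [mul_add, add_mul, add_smul, ← hc, ← hd]; abel
  | smul r a _ ha =>
    obtain ⟨c, hc⟩ := ha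
    refine ⟨r * c, ?_⟩
    rw [mul_smul_comm, smul_mul_assoc, ← smul_add, hc, smul_smul]

/-! ### The form -/

/-- The factors of the form. -/
def Jf (K : Type*) [Field K] (k : ℕ) : Matrix (Fin 2) (Fin 2) K :=
  if Even k then Ym K else Xm K

/-- The form. -/
def JS (K : Type*) [Field K] (n : ℕ) : Matrix (Sx n) (Sx n) K :=
  Tn (fun k => Jf K (k.val + (n + 1)))

lemma Jf_t (k : ℕ) : (Jf K k).transpose = (-1 : K) ^ (k + 1) • Jf K k := by
  unfold Jf
  split_ifs with h
  · rw [Ym_t, h.add_one.neg_one_pow]; simp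
  · rw [Xm_t, (Nat.not_even_iff_odd.mp h).add_one.neg_one_pow]; simp

lemma Jf_sq (k : ℕ) : Jf K k * Jf K k = (-1 : K) ^ (k + 1) • 1 := by
  unfold Jf
  split_ifs with h
  · rw [Ym_sq, h.add_one.neg_one_pow]; simp
  · rw [Xm_sq, (Nat.not_even_iff_odd.mp h).add_one.neg_one_pow]; simp

lemma AC_Jf (k : ℕ) {B : Matrix (Fin 2) (Fin 2) K} (hB : B ∈ AC K) :
    B.transpose * Jf K k = (-1 : K) ^ (k + 1) • (Jf K k * B) := by
  unfold Jf
  split_ifs with h
  · rw [h.add_one.neg_one_pow]; exact AC_Ym hB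
  · rw [(Nat.not_even_iff_odd.mp h).add_one.neg_one_pow]; exact AC_Xm hB

lemma Zm_Jf (k : ℕ) : Zm K * Jf K k = (-1 : K) • (Jf K k * Zm K) := by
  unfold Jf
  split_ifs
  · rw [Zm_Ym]; simp
  · rw [Zm_Xm]; simp

lemma prod_sg (hn : n % 4 = 1 ∨ n % 4 = 2) :
    ∏ k : Fin n, (-1 : K) ^ (k.val + (n + 1) + 1) = -1 := by
  rw [Finset.prod_pow_eq_pow_sum, Fin.sum_univ_eq_sum_range (fun k => k + (n + 1) + 1) n]
  have h1 : (∑ k ∈ Finset.range n, (k + (n + 1) + 1)) * 2 = n * (n - 1) + 2 * (n * (n + 2)) := by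
    simp only [Finset.sum_add_distrib, Finset.sum_const, Finset.card_range, smul_eq_mul]
    rw [add_mul, add_mul, Finset.sum_range_id_mul_two]
    ring
  have h2 : Odd (∑ k ∈ Finset.range n, (k + (n + 1) + 1)) := by
    generalize (∑ k ∈ Finset.range n, (k + (n + 1) + 1)) = s at h1
    rw [Nat.odd_iff]
    rcases hn with hn | hn
    · obtain ⟨q, rfl⟩ : ∃ q, n = 4 * q + 1 := ⟨n / 4, by omega⟩
      rw [Nat.add_sub_cancel] at h1
      ring_nf at h1
      have : s * 2 = 2 * (3 + q * 18 + q ^ 2 * 24) := by rw [h1]; ring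
      omega
    · obtain ⟨q, rfl⟩ : ∃ q, n = 4 * q + 2 := ⟨n / 4, by omega⟩
      have e : 4 * q + 2 - 1 = 4 * q + 1 := by omega
      rw [e] at h1
      ring_nf at h1
      have : s * 2 = 2 * (9 + q * 30 + q ^ 2 * 24) := by rw [h1]; ring
      omega
  exact h2.neg_one_pow

lemma JS_t (hn : n % 4 = 1 ∨ n % 4 = 2) : (JS K n).transpose = -JS K n := by
  rw [JS, Tn_transpose]
  ext x y
  have := prod_sg (K := K) hn
  simp only [Tn, Jf_t, Matrix.smul_apply, smul_eq_mul, Finset.prod_mul_distrib, this,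
    Matrix.neg_apply, neg_one_mul]

lemma JS_sq (hn : n % 4 = 1 ∨ n % 4 = 2) : JS K n * JS K n = -1 := by
  rw [JS, Tn_mul, ← Tn_one]
  ext x y
  have := prod_sg (K := K) hn
  simp only [Tn, Jf_sq, Matrix.smul_apply, smul_eq_mul, Finset.prod_mul_distrib, this,
    Matrix.neg_apply, neg_one_mul]

lemma JS_det (hn : n % 4 = 1 ∨ n % 4 = 2) : (JS K n).det ≠ 0 := by
  intro h0
  have h1 := congrArg Matrix.det (JS_sq (K := K) hn)
  rw [Matrix.det_mul, h0, zero_mul, Matrix.det_neg, Matrix.det_one, mul_one] at h1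
  exact pow_ne_zero _ (neg_ne_zero.mpr one_ne_zero) h1.symm

lemma prod_lt (j : Fin n) (t : K) :
    ∏ k : Fin n, (if k < j then (-1 : K) else if k = j then t else 1) = (-1) ^ j.val * t := by
  have e : ∀ k : Fin n, (if k < j then (-1 : K) else if k = j then t else 1) =
      (if k < j then (-1 : K) else 1) * (if k = j then t else 1) := by
    intro k
    by_cases h1 : k < j
    · simp [h1, h1.ne]
    · simp [h1]
  simp only [e, Finset.prod_mul_distrib]
  rw [Finset.prod_ite_eq' Finset.univ j (fun _ => t), if_pos (Finset.mem_univ _)]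
  congr 1
  rw [Finset.prod_ite, Finset.prod_const_one, mul_one, Finset.prod_const]
  congr 1
  have : (Finset.univ.filter (fun x : Fin n => x < j)) = Finset.Iio j := by
    ext x; simp
  rw [this, Fin.card_Iio]

lemma JS_jw (j : Fin n) {B : Matrix (Fin 2) (Fin 2) K} (hB : B ∈ AC K) :
    (jw j B).transpose * JS K n = (-1 : K) ^ n • (JS K n * jw j B) := by
  have h : ∀ k : Fin n, (if k < j then Zm K else if k = j then B else 1).transpose *
      Jf K (k.val + (n + 1)) =
      (if k < j then (-1 : K) else if k = j then (-1 : K) ^ (j.val + (n + 1) + 1) else 1) •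
      (Jf K (k.val + (n + 1)) * (if k < j then Zm K else if k = j then B else 1)) := by
    intro k
    by_cases h1 : k < j
    · simp only [h1, if_true, Zm_t]
      exact Zm_Jf _
    · by_cases h2 : k = j
      · subst h2
        simp only [lt_irrefl, if_false, if_true]
        exact AC_Jf _ hB
      · simp [h1, h2]
  have := Tn_sign h
  rw [prod_lt] at this
  rw [jw, Tn_transpose, JS, this]
  congr 1
  have e : j.val + (j.val + (n + 1) + 1) = 2 * (j.val + 1) + n := by ring
  rw [← pow_add, e, pow_add, pow_mul, neg_one_sq, one_pow, one_mul]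

lemma JS_g0 : (g0 K n).transpose * JS K n = (-1 : K) ^ n • (JS K n * g0 K n) := by
  have h : ∀ k : Fin n, (Zm K).transpose * Jf K (k.val + (n + 1)) =
      (-1 : K) • (Jf K (k.val + (n + 1)) * Zm K) := by
    intro k
    rw [Zm_t]
    exact Zm_Jf _
  have := Tn_sign h
  rw [Finset.prod_const, Finset.card_univ, Fintype.card_fin] at this
  rw [g0, Tn_transpose, JS, this]

lemma JS_VS : ∀ v ∈ VS K n, v.transpose * JS K n = (-1 : K) ^ n • (JS K n * v) := by
  intro v hv
  induction hv using Submodule.span_induction with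
  | mem v hv =>
    rcases hv with ⟨j, B, hB, rfl⟩ | rfl
    · exact JS_jw j hB
    · exact JS_g0
  | zero => simp
  | add a b _ _ ha hb =>
    rw [Matrix.transpose_add, add_mul, ha, hb, mul_add, smul_add]
  | smul r a _ ha =>
    rw [Matrix.transpose_smul, smul_mul_assoc, ha, mul_smul_comm, smul_comm]

/-! ### Entries far from the diagonal -/

lemma exists_ne_of_dist {p q : Sx n} (h : 1 < hammingDist p q) (j : Fin n) :
    ∃ k, k ≠ j ∧ p k ≠ q k := by
  rw [hammingDist, Finset.one_lt_card] at h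
  obtain ⟨a, ha, b, hb, hab⟩ := h
  rw [Finset.mem_filter] at ha hb
  by_cases h1 : a = j
  · exact ⟨b, fun h2 => hab (h1.trans h2.symm), hb.2⟩
  · exact ⟨a, h1, ha.2⟩

lemma VS_far {v : Matrix (Sx n) (Sx n) K} (hv : v ∈ VS K n) {p q : Sx n}
    (h : 1 < hammingDist p q) : v p q = 0 := by
  have hZ : ∀ a b : Fin 2, a ≠ b → Zm K a b = 0 := by
    intro a b; fin_cases a <;> fin_cases b <;> simp [Zm]
  induction hv using Submodule.span_induction with
  | mem v hv =>
    rcases hv with ⟨j, B, hB, rfl⟩ | rfl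
    · obtain ⟨k, hk, hpq⟩ := exists_ne_of_dist h j
      refine Finset.prod_eq_zero (Finset.mem_univ k) ?_
      by_cases h1 : k < j
      · simp only [h1, if_true]; exact hZ _ _ hpq
      · simp only [h1, hk, if_false]; exact Matrix.one_apply_ne hpq
    · rw [hammingDist, Finset.one_lt_card] at h
      obtain ⟨a, ha, -⟩ := h
      rw [Finset.mem_filter] at ha
      exact Finset.prod_eq_zero (Finset.mem_univ a) (hZ _ _ ha.2)
  | zero => rfl
  | add a b _ _ ha hb => rw [Matrix.add_apply, ha, hb, add_zero]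
  | smul r a _ ha => rw [Matrix.smul_apply, ha, smul_zero]

lemma VV_far {X : Matrix (Sx n) (Sx n) K} (hX : X ∈ VS K n * VS K n) {p q : Sx n}
    (h : 2 < hammingDist p q) : X p q = 0 := by
  induction hX using Submodule.mul_induction_on' with
  | mem_mul_mem v hv w hw =>
    rw [Matrix.mul_apply]
    apply Finset.sum_eq_zero
    intro r _
    by_cases h1 : 1 < hammingDist p r
    · rw [VS_far hv h1, zero_mul]
    · by_cases h2 : 1 < hammingDist r q
      · rw [VS_far hw h2, mul_zero]
      · have := hammingDist_triangle p r q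
        omega
  | add a _ b _ ha hb => rw [Matrix.add_apply, ha, hb, add_zero]

end TRSpin
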